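import Pool.Agent.Helper68.VW.Sw
import Pool.Agent.Helper10.BLD.St
import Pool.Agent.Helper13.AM.Cl

/-! Row [VWP] of the builder: views under extensions and events. -/

set_option autoImplicit false

namespace Pool.Agent.Helper68.VW

open Finset Filter Topology Pool.Agent.Helper69.RK Pool.Agent.Helper31.EC Pool.Agent.Helper31.EC.Sp
open Pool.Agent.Helper31.EC.QS Pool.Agent.Helper40.EL Pool.Agent.Helper84.MT
open Pool.Agent.Helper36.AM Pool.Agent.Helper13.AM Pool.Agent.Helper10.BLD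
open Pool.Agent.Helper8.PLK (unz puz evz evz_pos)
open Pool.Agent.Helper95.RIG (rsP rsP_qs rsP_map pos_pull ul_pr_pull pr_pull)

noncomputable section

/-! ### partitions under extensions and restrictions -/

section part

variable {S T : Sp}

theorem PLe_pull (p : Pj T S) {A B : Part S} (hAB : PLe A B) : PLe (A.pull p) (B.pull p) := by
  have h1 : Nul T (fun k => h (A k) (B k)) := (Lab.nul_pj p).mpr hAB
  refine h1.of_le (Eventually.of_forall fun _ => h_nonneg _ _) (Eventually.of_forall fun k => ?_)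
  exact ((p.fp k).h_map (A k) (B k)).le

theorem PLe_rest (E : ∀ k, (S.F k).Ω → Prop) (hE : 0 < ul (S.pr E)) {A B : Part S} (hAB : PLe A B) :
    PLe (A.rest E) (B.rest E) :=
  Nul.div_pr hE hAB (fun _ => h_nonneg _ _) (fun k => ((S.F k).rmap_h_le (E k) (A k) (B k)).trans
    (le_add_of_nonneg_right zero_le_one))

theorem PLe_evt {A B : Part S} (hh : ∀ᶠ k in UF, A k ≤ B k) : PLe A B := by
  unfold PLe Nul
  refine tendsto_const_nhds.congr' ?_
  filter_upwards [hh] with k hk
  rw [h_zero hk, zero_div]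

theorem comp_qs {R : Sp} (q : Pj R T) (p : Pj T S) (x : QS S) : (q.comp p).qs x = q.qs (p.qs x) := by
  obtain ⟨f, rfl⟩ := QS.mk_surj x
  rfl

/-- representatives -/
theorem rp_cl_le (A : S.Inf) : PLe (rp (cl A)) (rpI A) ∧ PLe (rpI A) (rp (cl A)) := rp_rpI A

end part

/-! ### the projection of a restricted view -/

section pv

variable {S W : Sp} {e : ℝ} {he : 0 < e}

/-- the view, as an extension of the zoom over the trivial base -/
def pb0 (p : Pj W (S.chg S.tr e he)) : Pj W (S.chg (Sp.Inf.bot : S.Inf).1 e he) := p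

variable (p : Pj W (S.chg S.tr e he)) (B : ∀ k, (W.F k).Ω → Prop)

/-- the space of the member, restricted to the event -/
abbrev Sv : Sp := Sp.im (puz (pb0 p)) (evz (pb0 p) B)

/-- the view on the event -/
def pv : Pj (W.rest B) ((Sv p B).chg (Sv p B).tr e he) where
  π := p.π
  law := fun _ => rfl
  hZ := fun k ω ω' a b => p.hZ k ω ω' ((W.F k).rest_supp (B k) ω a).1 ((W.F k).rest_supp (B k) ω' b).1
  hn := p.hn

variable (hB : 0 < ul (W.pr B)) (h1 : e ≤ 1)

/-- functions of the member on the event -/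
def phA : QS S →+* QS (W.rest B) := (QS.rest B hB).comp (p.qs.comp (cQ S.tr e he h1))

def phB : QS (Sv p B) →+* QS (W.rest B) := (pv p B).qs.comp (cQ (Sv p B).tr e he h1)

variable {M d N : ℕ} {w : Fin (M + 1) → ℝ} (P : Spl w d N)

theorem ph_rcst (a : ℝ) : phA p B hB h1 (Pool.Agent.Helper57.TA.rcst S a) =
    phB p B h1 (Pool.Agent.Helper57.TA.rcst (Sv p B) a) := rfl

theorem ph_qc (Q : S.VV (M + 1)) (j : Fin (M + 1)) : phA p B hB h1 (qc Q j) =
    phB p B h1 (qc (Q.im (puz (pb0 p)) (evz (pb0 p) B)) j) := rfl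

theorem pv_qA (A : Matrix (Fin (d + 1)) (Fin (d + 1)) ℝ) (Q : S.VV (M + 1)) (i : Fin (d + 1)) :
    phA p B hB h1 (qA P A Q i) = phB p B h1 (qA P A (Q.im (puz (pb0 p)) (evz (pb0 p) B)) i) := by
  unfold qA
  rw [map_sum, map_sum]
  apply Finset.sum_congr rfl
  intro j _
  rw [map_mul, map_mul, ph_rcst, ph_qc]

theorem pv_Rv (Q : S.VV (M + 1)) (j : Fin N) :
    phA p B hB h1 (Rv P Q j) = phB p B h1 (Rv P (Q.im (puz (pb0 p)) (evz (pb0 p) B)) j) := rfl

end pv

/-! ### representatives of informations -/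

section rep

variable {S T : Sp}

theorem rp_map_ge (p : Pj T S) (x : S.L) : PLe (rp (p.map x)) ((rp x).pull p) := by
  induction x using cl_ind with | _ A
  have h1 : PLe (rp (cl (p.mapI A))) (rpI (p.mapI A)) := (rp_cl_le _).1
  have h2 : PLe ((rpI A).pull p) ((rp (cl A)).pull p) := PLe_pull p (rp_cl_le A).2
  exact h1.trans h2

/-- functions of the windows under extensions -/
theorem rp_map_PLe (p : Pj T S) {x : S.L} {B : Part S} (hB : PLe (rp x) B) : PLe (rp (p.map x)) (B.pull p) :=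
  (rp_map_ge p x).trans (PLe_pull p hB)

theorem pull_comp {R : Sp} (q : Pj R T) (p : Pj T S) (A : Part S) : A.pull (q.comp p) = (A.pull p).pull q := by
  funext k
  show ((q.comp p).fp k).map (A k) = (q.fp k).map ((p.fp k).map (A k))
  induction A k using fc_ind
  rfl

end rep

/-! ### extensions -/

section main

variable {M g r d N r' : ℕ} {w : Fin (M + 1) → ℝ} {P : Spl w d N}
  {TT : ∀ S : Sp, MSys S (M + 1) (lin g) (Fin r) → Prop} {T : Sp} {c : CD T d N r'}

theorem vw_pull (hv : Vw P TT T c) (W : Sp) (q : Pj W T) : Vw P TT W (c.pull q) := by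
  obtain ⟨E, hE, S, t, e, he, h1, p, κ, V, A, tE, ht, hwe, hA, hq, hR, hV, hD, hL⟩ := hv
  refine ⟨fun k ω => E k (q.π k ω), pos_pull q hE, S, t, e, he, h1, (rsP q E).comp p, κ, V, A, ?_, ht, hwe, hA, ?_,
    ?_, ?_, hD, ?_⟩
  · rw [Typ_iff] at tE ⊢
    have e1 : W.pr (fun k ω => E k (q.π k ω)) = T.pr E := funext (pr_pull q E)
    rw [e1]
    exact tE
  · intro i
    rw [comp_qs]
    show QS.rest _ (pos_pull q hE) (q.qs (c.q i)) = (rsP q E).qs (p.qs (cQ S.tr e he h1 (qA P A t.Q i)))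
    rw [← rsP_qs q E hE, hq i]
  · intro j
    rw [comp_qs]
    show QS.rest _ (pos_pull q hE) (q.qs (c.R j)) = (rsP q E).qs (p.qs (cQ S.tr e he h1 (Rv P t.Q j)))
    rw [← rsP_qs q E hE, hR j]
  · intro s h0 hs k ω ω' a b hZ
    exact hV s h0 hs k _ _ ((rsP q E).supp k ω a) ((rsP q E).supp k ω' b) (((rsP q E).hZ k ω ω' a b).mp hZ)
  · intro hd i0
    have win : ∀ s : ℝ, (((t.trn e he h1).pull ((rsP q E).comp p)).lf i0).win s =
        ((((t.trn e he h1).pull p).lf i0).win s).pull (rsP q E) := by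
      intro s
      have a1 : (((t.trn e he h1).pull ((rsP q E).comp p)).lf i0).win s =
          (((t.trn e he h1).lf i0).win s).pull ((rsP q E).comp p) := win_pull _ _ s
      have a2 : (((t.trn e he h1).pull p).lf i0).win s = (((t.trn e he h1).lf i0).win s).pull p := win_pull _ _ s
      rw [a1, a2, pull_comp]
    rcases hL hd i0 with hl | ⟨i, hl⟩
    · left
      rw [win, CD.pull_O, ← rsP_map q E hE]
      exact rp_map_PLe _ hl
    · right
      refine ⟨i, fun s h0 hs => ?_⟩
      have e1 : (c.pull q).xi i ⊔ dg ((c.pull q).q 0) s = q.map (c.xi i ⊔ dg (c.q 0) s) := by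
        rw [CD.pull_xi, q.map_sup, ← q.qs_dg]
        rfl
      rw [win, e1, ← rsP_map q E hE]
      exact rp_map_PLe _ (hl s h0 hs)

/-- windows of the restricted view -/
theorem win_rest {S : Sp} {e : ℝ} {he : 0 < e} (h1 : e ≤ 1) (t : MSys S (M + 1) (lin g) (Fin r))
    (E B : ∀ k, (T.F k).Ω → Prop) (p : Pj (T.rest E) (S.chg S.tr e he))
    (hB : 0 < ul ((unz (pb0 p)).pr (evz (pb0 p) (Bv E B)))) (i0 : Fin r) (s : ℝ) :
    (((((t.im (puz (pb0 p)) (evz (pb0 p) (Bv E B)) hB).trn e he h1).pull ((sw E B).comp (pv p (Bv E B)))).lf i0).win s) =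
      ((((((t.trn e he h1).pull p).lf i0).win s).rest (Bv E B)).pull (sw E B)) := by
  have a1 := win_pull ((sw E B).comp (pv p (Bv E B)))
    (((t.im (puz (pb0 p)) (evz (pb0 p) (Bv E B)) hB).trn e he h1).lf i0) s
  have a2 : (((t.trn e he h1).pull p).lf i0).win s = (((t.trn e he h1).lf i0).win s).pull p := win_pull _ _ s
  rw [a2]
  refine a1.trans ?_
  rw [pull_comp]
  rfl

theorem vw_rest {Cl : MCl (M + 1)} {ρ : ℝ} (hT : Hom M Cl g r w ρ TT) (hb : ∀ i, Bdd (c.bV i)) (hv : Vw P TT T c)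
    (B : ∀ k, (T.F k).Ω → Prop) (hB : 0 < ul (T.pr B)) : Vw P TT (T.rest B) (c.rest B hB) := by
  obtain ⟨E, hE, S, t, e, he, h1, p, κ, V, A, tE, ht, hwe, hA, hq, hR, hV, hD, hL⟩ := hv
  have tE' := Ev_typ hB tE
  have hE' : 0 < ul ((T.rest B).pr (Ev E B)) := ul_pr_typ_pos (S := T.rest B) _ tE'
  have hB' : 0 < ul ((T.rest E).pr (Bv E B)) := Bv_pos hB tE
  have hB'' : 0 < ul ((unz (pb0 p)).pr (evz (pb0 p) (Bv E B))) := hB'
  refine ⟨Ev E B, hE', Sv p (Bv E B), t.im (puz (pb0 p)) (evz (pb0 p) (Bv E B)) hB'', e, he, h1,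
    (sw E B).comp (pv p (Bv E B)), κ, V, A, tE', hT.im _ _ ht _ _ _ _, hwe, hA, ?_, ?_, ?_, ?_, ?_⟩
  · intro i
    show QS.rest (S := T.rest B) (Ev E B) hE' (QS.rest B hB (c.q i)) = _
    rw [← sw_qs hB tE hE hE' hB', hq i, comp_qs]
    exact congrArg (sw E B).qs (pv_qA p (Bv E B) hB' h1 P A t.Q i)
  · intro j
    show QS.rest (S := T.rest B) (Ev E B) hE' (QS.rest B hB (c.R j)) = _
    rw [← sw_qs hB tE hE hE' hB', hR j, comp_qs]
    exact congrArg (sw E B).qs (pv_Rv p (Bv E B) hB' h1 P t.Q j)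
  · intro s h0 hs k ω ω' a b hZ
    by_cases hk : gd E B k
    · have e1 : swπ E B k = fun ω => ω := swπ_gd E B hk
      have a1 : ((T.rest E).F k).μ ω ≠ 0 := by
        have a2 := ((T.rest E).F k).rest_supp (Bv E B k) _ ((sw E B).supp k ω a)
        have a3 : (sw E B).π k ω = ω := congrFun e1 ω
        rw [a3] at a2
        exact a2.1
      have b1 : ((T.rest E).F k).μ ω' ≠ 0 := by
        have a2 := ((T.rest E).F k).rest_supp (Bv E B k) _ ((sw E B).supp k ω' b)
        have a3 : (sw E B).π k ω' = ω' := congrFun e1 ω'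
        rw [a3] at a2
        exact a2.1
      have h2 := hV s h0 hs k ω ω' a1 b1 hZ
      show c.VK s k ω = c.VK s k ω' ↔ V s k (p.π k (swπ E B k ω)) = V s k (p.π k (swπ E B k ω'))
      rw [e1]
      exact h2
    · rw [supp_bd E B hk a, supp_bd E B hk b]
      exact ⟨fun _ => rfl, fun _ => rfl⟩
  · intro s h0 hs
    exact DMc_im (puz (pb0 p)) (evz (pb0 p) (Bv E B)) hB'' (hD s h0 hs)
  · intro hd i0
    have key : ∀ (x : T.L) (s : ℝ), PLe (rp (restL E hE x)) ((((t.trn e he h1).pull p).lf i0).win s) →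
        PLe (rp (restL (S := T.rest B) (Ev E B) hE' (restL B hB x)))
          (((((t.im (puz (pb0 p)) (evz (pb0 p) (Bv E B)) hB'').trn e he h1).pull
            ((sw E B).comp (pv p (Bv E B)))).lf i0).win s) := by
      intro x s hx
      induction x using cl_ind with | _ A0
      have h2 : PLe (rpI (restI E A0)) ((((t.trn e he h1).pull p).lf i0).win s) := (rp_cl_le (restI E A0)).2.trans hx
      have h3 := PLe_pull (sw E B) (PLe_rest (Bv E B) hB' h2)
      have h4 : PLe (rp (restL (S := T.rest B) (Ev E B) hE' (restL B hB (cl A0))))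
          (rpI (restI (S := T.rest B) (Ev E B) (restI B A0))) := (rp_cl_le _).1
      have h5 : PLe (rpI (restI (S := T.rest B) (Ev E B) (restI B A0)))
          (((rpI (restI E A0)).rest (Bv E B)).pull (sw E B)) := by
        apply PLe_evt
        filter_upwards [gd_ev hB tE] with k hk
        show (fc (F := ((T.rest B).rest (Ev E B)).F k) (A0.1 k)) ≤
          fc (F := ((T.rest B).rest (Ev E B)).F k) (Setoid.comap (swπ (T := T) E B k) (A0.1 k))
        rw [swπ_gd E B hk]
        exact le_rfl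
      rw [win_rest h1 t E B p hB'' i0 s]
      exact (h4.trans h5).trans h3
    rcases hL hd i0 with hl | ⟨i, hl⟩
    · left
      rw [CD.rest_O]
      exact key _ 0 hl
    · right
      refine ⟨i, fun s h0 hs => ?_⟩
      have e1 : (c.rest B hB).xi i ⊔ dg ((c.rest B hB).q 0) s = restL B hB (c.xi i ⊔ dg (c.q 0) s) := by
        rw [CD.rest_xi B hB hb, restL_sup, ← QS.rest_dg]
        rfl
      rw [e1]
      exact key _ s (hl s h0 hs)

/-- ROW [VWP]: views under extensions and events -/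
theorem st_vwp (M : ℕ) : ST_VWP M := by
  intro Cl g r w ρ TT hT d N r' P T c hc
  exact ⟨fun W p => vw_pull hc.vw W p, fun B hB => vw_rest hT hc.ax0.ln.bdd hc.vw B hB⟩

end main

end

end Pool.Agent.Helper68.VW
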