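import Pool.Agent.Helper68.VW.Vwp
import Pool.Agent.Helper57.TA.Sc

/-! Row [VWZ] of the builder, scale `s = 0`: truncations. Partitions over a finer base. -/

set_option autoImplicit false

namespace Pool.Agent.Helper68.VW

open Finset Filter Topology Pool.Agent.Helper69.RK Pool.Agent.Helper31.EC Pool.Agent.Helper31.EC.Sp
open Pool.Agent.Helper31.EC.QS Pool.Agent.Helper40.EL Pool.Agent.Helper84.MT
open Pool.Agent.Helper36.AM Pool.Agent.Helper13.AM Pool.Agent.Helper10.BLD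
open Pool.Agent.Helper57.TA (sc rcst)

noncomputable section

/-! ### partitions over a finer base -/

section chgp

variable {S : Sp} (Z : ∀ k, Setoid (S.F k).Ω) (e : ℝ) (he : 0 < e)

theorem nul_chg {f : ℕ → ℝ} : Nul (S.chg Z e he) f ↔ Nul S f := by
  have e1 : (fun k => f k / ((S.chg Z e he).F k).n) = fun k => e⁻¹ * (f k / (S.F k).n) := by
    funext k
    show f k / (e * (S.F k).n) = _
    rw [mul_comm e, ← div_div, div_eq_inv_mul]
  have e2 : (fun k => f k / (S.F k).n) = fun k => e * (f k / ((S.chg Z e he).F k).n) := by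
    funext k
    rw [congrFun e1 k]
    field_simp
  constructor
  · intro h
    have h1 : Tendsto (fun k => f k / ((S.chg Z e he).F k).n) UF (𝓝 0) := h
    have h2 := h1.const_mul e
    rw [mul_zero, ← e2] at h2
    exact h2
  · intro h
    have h1 : Tendsto (fun k => f k / (S.F k).n) UF (𝓝 0) := h
    have h2 := h1.const_mul e⁻¹
    rw [mul_zero, ← e1] at h2
    exact h2

theorem PLe_of_eq {A B : Part S} (h : A = B) : PLe A B := by
  rw [h]
  exact PLe.refl B

/-- partitions over a finer base -/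
def chgP (A : Part S) : Part (S.chg Z e he) := fun k => (frb (S.F k) (Z k) e he).map (A k)

theorem chgP_fc (A : ∀ k, Setoid (S.F k).Ω) (k : ℕ) :
    chgP Z e he (fun k => fc (A k)) k = fc (F := (S.chg Z e he).F k) (A k) := rfl

theorem PLe_chgP {A B : Part S} (h : PLe A B) : PLe (chgP Z e he A) (chgP Z e he B) := by
  refine (nul_chg Z e he).mpr (Nul.of_le h (Eventually.of_forall fun _ => h_nonneg _ _)
    (Eventually.of_forall fun k => ?_))
  have h1 := (frb (S.F k) (Z k) e he).h_map (A k) (B k)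
  exact h1.le.trans (h_anti le_sup_left)

theorem rp_chgL (x : S.L) : PLe (rp (chgL Z e he x)) (chgP Z e he (rp x)) := by
  induction x using cl_ind with | _ A
  have h1 : PLe (rp (cl (chgI Z e he A))) (rpI (chgI Z e he A)) := (rp_cl_le _).1
  have h2 : PLe (chgP Z e he (rpI A)) (chgP Z e he (rp (cl A))) := PLe_chgP Z e he (rp_cl_le A).2
  exact h1.trans h2

/-- a smaller information over a finer base -/
theorem rp_chgL_le {x : S.L} {y : (S.chg Z e he).L} {B : Part S} (hy : y ≤ chgL Z e he x) (hx : PLe (rp x) B) :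
    PLe (rp y) (chgP Z e he B) :=
  ((rp_mono hy).trans (rp_chgL Z e he x)).trans (PLe_chgP Z e he hx)

end chgp

/-! ### truncations of views -/

section tr0

variable {S W : Sp} {e : ℝ} {he : 0 < e}

/-- the view of the truncation -/
def pz (p : Pj W (S.chg S.tr e he)) (Z : ∀ k, Setoid (W.F k).Ω)
    (hZ : ∀ k ω ω', (W.F k).μ ω ≠ 0 → (W.F k).μ ω' ≠ 0 → (W.F k).Z ω ω' → Z k ω ω') {e' : ℝ} (he' : 0 < e')
    (h0 : 0 < e * e') : Pj (W.chg Z e' he') (S.chg S.tr (e * e') h0) where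
  π := p.π
  law := p.law
  hZ := by
    intro k ω ω' a b
    have h1 := p.hZ k ω ω' a b
    have h2 := hZ k ω ω' a b
    exact ⟨fun h => h1.mp h.2, fun h => ⟨h2 (h1.mpr h), h1.mpr h⟩⟩
  hn := by
    intro k
    show e' * (W.F k).n = e * e' * (S.F k).n
    have h1 : (W.F k).n = e * (S.F k).n := p.hn k
    rw [h1]
    ring

variable (p : Pj W (S.chg S.tr e he)) (Z : ∀ k, Setoid (W.F k).Ω)
    (hZ : ∀ k ω ω', (W.F k).μ ω ≠ 0 → (W.F k).μ ω' ≠ 0 → (W.F k).Z ω ω' → Z k ω ω') {e' : ℝ} (he' : 0 < e')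
    (h0 : 0 < e * e') (h1 : e ≤ 1) (h1' : e' ≤ 1) (h2 : e * e' ≤ 1)

/-- functions of the member under the view of the truncation -/
theorem pz_qs (f : QS S) : (pz p Z hZ he' h0).qs (cQ S.tr (e * e') h0 h2 f) = cQ Z e' he' h1' (p.qs (cQ S.tr e he h1 f)) := by
  obtain ⟨f, rfl⟩ := QS.mk_surj f
  rfl

variable {M g r : ℕ} (t : MSys S (M + 1) (lin g) (Fin r))

/-- windows of the truncation -/
theorem pz_win (i0 : Fin r) (s : ℝ) : (((t.trn (e * e') h0 h2).pull (pz p Z hZ he' h0)).lf i0).win s =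
    chgP Z e' he' ((((t.trn e he h1).pull p).lf i0).win (e' * s)) := by
  have a1 : (((t.trn (e * e') h0 h2).pull (pz p Z hZ he' h0)).lf i0).win s =
    (((t.trn (e * e') h0 h2).lf i0).win s).pull (pz p Z hZ he' h0) := win_pull _ _ s
  have a2 : (((t.trn e he h1).pull p).lf i0).win (e' * s) = (((t.trn e he h1).lf i0).win (e' * s)).pull p :=
    win_pull _ _ _
  rw [a1, a2]
  funext k
  have b1 : ((t.trn (e * e') h0 h2).lf i0).Y.cellv s k = (t.lf i0).Y.cellv (e * e' * s) k :=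
    Pool.Agent.Helper52.SL.cellv_chg (t.lf i0).Y (e * e') h0 s k
  have b2 : ((t.trn e he h1).lf i0).Y.cellv (e' * s) k = (t.lf i0).Y.cellv (e * (e' * s)) k :=
    Pool.Agent.Helper52.SL.cellv_chg (t.lf i0).Y e he (e' * s) k
  have b3 : e * (e' * s) = e * e' * s := by ring
  rw [b3] at b2
  have b4 : ((t.trn e he h1).lf i0).Y.cellv (e' * s) k = ((t.trn (e * e') h0 h2).lf i0).Y.cellv s k := b2.trans b1.symm
  have c1 : ((((t.trn (e * e') h0 h2).lf i0).win s).pull (pz p Z hZ he' h0)) k =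
      fc (F := (W.chg Z e' he').F k) (Setoid.comap (p.π k) ((t.lf i0).La k ⊓
        Setoid.ker (((t.trn (e * e') h0 h2).lf i0).Y.cellv s k))) := rfl
  have c2 : chgP Z e' he' ((((t.trn e he h1).lf i0).win (e' * s)).pull p) k =
      fc (F := (W.chg Z e' he').F k) (Setoid.comap (p.π k) ((t.lf i0).La k ⊓
        Setoid.ker (((t.trn e he h1).lf i0).Y.cellv (e' * s) k))) := rfl
  rw [c1, c2, b4]
  rfl

end tr0

/-! ### the row for `s = 0` -/

section main

variable {M g r d N r' : ℕ} {w : Fin (M + 1) → ℝ} {P : Spl w d N} {ρ : ℝ}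
  {TT : ∀ S : Sp, MSys S (M + 1) (lin g) (Fin r) → Prop} {T : Sp} {c : CD T d N r'}

theorem rest_cQ (E : ∀ k, (T.F k).Ω → Prop) (hE : 0 < ul (T.pr E)) (Z : ∀ k, Setoid (T.F k).Ω) (e : ℝ) (he : 0 < e)
    (h1 : e ≤ 1) (f : QS T) : QS.rest (S := T.chg Z e he) E hE (cQ Z e he h1 f) =
      cQ (S := T.rest E) Z e he h1 (QS.rest E hE f) := by
  obtain ⟨f, rfl⟩ := QS.mk_surj f
  rfl

theorem restL_chgL (E : ∀ k, (T.F k).Ω → Prop) (hE : 0 < ul (T.pr E)) (Z : ∀ k, Setoid (T.F k).Ω) (e : ℝ) (he : 0 < e)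
    (x : T.L) : restL (S := T.chg Z e he) E hE (chgL Z e he x) = chgL (S := T.rest E) Z e he (restL E hE x) := by
  induction x using cl_ind with | _ A
  rfl

/-- ROW [VWZ], `s = 0`: the view of a truncation -/
theorem vw_zero (hc : CCo P ρ TT r' T c) (e : ℝ) (he : 0 < e) (h1 : e ≤ 1) (Z : ∀ k, Setoid (T.F k).Ω)
    (hZ : ∀ k, Z k = Setoid.ker (c.VK 0 k)) (c' : CD (T.chg Z e he) d N r') (hR : c.ZR P.w P.z 0 e he h1 Z c') :
    Vw P TT _ c' := by
  obtain ⟨E, hE, S, t, e₀, he₀, h₀, p, κ, V, A, tE, ht, hwe, hA, hq, hRv, hV, hD, hL⟩ := hc.vw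
  have hz1 : 1 < P.w P.z := hc.ax0.w1 P.z
  have hzE : ∀ k ω ω', ((T.rest E).F k).μ ω ≠ 0 → ((T.rest E).F k).μ ω' ≠ 0 → ((T.rest E).F k).Z ω ω' → Z k ω ω' := by
    intro k ω ω' a b h
    rw [hZ k]
    exact hc.ax0.bx.zero k ω ω' ((T.F k).rest_supp (E k) ω a).1 ((T.F k).rest_supp (E k) ω' b).1 h
  have h0 : 0 < e₀ * e := mul_pos he₀ he
  have h2 : e₀ * e ≤ 1 := by nlinarith
  -- the point
  have q1 : ∀ i, c'.q i = cQ Z e he h1 (c.q i) := by
    intro i
    obtain ⟨X, hX, hX'⟩ := hR.q i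
    rw [Pool.Agent.Helper57.TA.sc_zero, one_mul, hc.ax0.bx.q00 i, sub_zero] at hX
    rw [hX', hX]
  have R1 : ∀ j, c'.R j = cQ Z e he h1 (c.R j) := by
    intro j
    obtain ⟨Y, hY, hY'⟩ := hR.R j
    rw [mul_zero, Pool.Agent.Helper57.TA.sc_zero, one_mul] at hY
    have a1 := hc.ax0.bx.fR 0 le_rfl (by rw [mul_zero]; exact zero_le_one) j
    rw [hc.ax0.bx.F0 j, map_zero, zero_add] at a1
    rw [hY', a1, hY]
  refine ⟨E, hE, S, t, e₀ * e, h0, h2, pz p Z hzE he h0, fun s => κ (e * s), fun s => V (e * s), A, ?_, ht, ?_, hA, ?_,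
    ?_, ?_, ?_, ?_⟩
  · exact tE
  · nlinarith
  · intro i
    rw [q1 i, rest_cQ, hq i]
    exact (pz_qs p Z hzE he h0 h₀ h1 h2 _).symm
  · intro j
    rw [R1 j, rest_cQ, hRv j]
    exact (pz_qs p Z hzE he h0 h₀ h1 h2 _).symm
  · intro s hs0 hs k ω ω' a b hz
    have e1 : P.w P.z * (e * s) ≤ 1 := by nlinarith [mul_nonneg (zero_le_one.trans hz1.le) hs0]
    have a' : ((T.rest E).F k).μ ω ≠ 0 := a
    have b' : ((T.rest E).F k).μ ω' ≠ 0 := b
    have h3 := hR.VK s hs0 (by rw [zero_add]; exact e1) k ω ω' ((T.F k).rest_supp (E k) ω a').1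
      ((T.F k).rest_supp (E k) ω' b').1 hz
    rw [zero_add] at h3
    exact h3.trans (hV (e * s) (mul_nonneg he.le hs0) e1 k ω ω' a' b' hz.2)
  · intro s hs0 hs
    have e1 : P.w P.z * (e * s) ≤ 1 := by nlinarith [mul_nonneg (zero_le_one.trans hz1.le) hs0]
    rw [mul_assoc]
    exact hD (e * s) (mul_nonneg he.le hs0) e1
  · intro hd i0
    have vdq : vd c'.q 1 ≤ chgL Z e he (vd c.q 1) := by
      have e1 : c'.q = fun i => cQ Z e he h1 (c.q i) := funext q1
      rw [e1, cQ_vd Z e he h1 c.q le_rfl, mul_one]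
      exact chgL_mono Z e he (vd_mono c.q h1)
    have vdR : vd c'.R 1 ≤ chgL Z e he (vd c.R 1) := by
      have e1 : c'.R = fun j => cQ Z e he h1 (c.R j) := funext R1
      rw [e1, cQ_vd Z e he h1 c.R le_rfl, mul_one]
      exact chgL_mono Z e he (vd_mono c.R h1)
    rcases hL hd i0 with hl | ⟨i, hl⟩
    · left
      have e1 : restL (S := T.chg Z e he) E hE c'.O ≤ chgL (S := T.rest E) Z e he (restL E hE c.O) := by
        rw [← restL_chgL]
        refine restL_mono (S := T.chg Z e he) E hE ?_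
        unfold CD.O
        rw [chgL_sup]
        exact sup_le_sup vdq vdR
      have e2 := rp_chgL_le (S := T.rest E) Z e he e1 hl
      have e3 := pz_win p Z hzE he h0 h₀ h2 t i0 0
      rw [mul_zero] at e3
      exact e2.trans (PLe_of_eq e3.symm)
    · right
      refine ⟨i, fun s hs0 hs => ?_⟩
      have es1 : e * s ≤ 1 := by nlinarith
      have e1 : restL (S := T.chg Z e he) E hE (c'.xi i ⊔ dg (c'.q 0) s) ≤
          chgL (S := T.rest E) Z e he (restL E hE (c.xi i ⊔ dg (c.q 0) (e * s))) := by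
        rw [← restL_chgL]
        refine restL_mono (S := T.chg Z e he) E hE ?_
        rw [chgL_sup, q1 0, cQ_dg Z e he h1 (c.q 0) hs]
        exact sup_le_sup (hR.xi i) le_rfl
      have e2 := rp_chgL_le (S := T.rest E) Z e he e1 (hl (e * s) (mul_nonneg he.le hs0) es1)
      exact e2.trans (PLe_of_eq (pz_win p Z hzE he h0 h₀ h2 t i0 s).symm)

end main

end

end Pool.Agent.Helper68.VW
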