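import Pool.Agent.Helper81.MT.Bas
import Pool.Agent.Helper84.MT.Pul
import Pool.Agent.Helper8.PLK.Zr
import Pool.Agent.Helper95.RIG.Rs
import Pool.Agent.Helper80.HCI.Agr
import Pool.Agent.Helper25.EC.Rst

/-! Views: two restrictions in either order, literal labels on events of extensions. -/

set_option autoImplicit false

namespace Pool.Agent.Helper68.VW

open Finset Filter Topology Pool.Agent.Helper69.RK Pool.Agent.Helper31.EC Pool.Agent.Helper31.EC.Sp
open Pool.Agent.Helper31.EC.QS Pool.Agent.Helper40.EL Pool.Agent.Helper84.MT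

noncomputable section

/-! ### literal labels on events of extensions -/

section lit

variable {S T : Sp}

/-- small conditional entropies stay small on events of extensions -/
theorem PLe_im (p : Pj T S) (E : ∀ k, (T.F k).Ω → Prop) (hE : 0 < ul (T.pr E)) {A B : Part S} (hAB : PLe A B) :
    PLe (A.im p E) (B.im p E) := by
  have e0 : ∀ k, h (A.im p E k) (B.im p E k) =
      h ((T.F k).rmap (E k) ((p.fp k).map (A k))) ((T.F k).rmap (E k) ((p.fp k).map (B k))) := by
    intro k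
    rw [← FSp.imp_imap, ← FSp.imp_imap, FPj.h_map]
    rfl
  have h1 : Nul T (fun k => h (A k) (B k)) := (Lab.nul_pj p).mpr hAB
  have h2 : Nul T (fun k => h (A.im p E k) (B.im p E k)) := by
    refine Nul.div_pr hE h1 (fun k => h_nonneg _ _) (fun k => ?_)
    rw [e0]
    have h3 := (T.F k).rmap_h_le (E k) ((p.fp k).map (A k)) ((p.fp k).map (B k))
    rw [(p.fp k).h_map] at h3
    exact h3.trans (le_add_of_nonneg_right zero_le_one)
  exact (Lab.nul_pj p).mp h2

variable {M : ℕ} {X : ℕ → ℕ} {ι : Type}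

/-- literal labels of the window `c` on events of extensions -/
theorem DMc_im (p : Pj T S) (A : ∀ k, (T.F k).Ω → Prop) (hA : 0 < ul (T.pr A)) {t : MSys S M X ι} {c : ℝ}
    {Z : ∀ k, Setoid (S.F k).Ω} (hd : t.DMc c (Lab.ofZ Z)) :
    (t.im p A hA).DMc c (Lab.ofZ (S := Sp.im p A) Z) := by
  have h1 : ∀ i, PLe (pof Z) (t.cnd c i) := (Lab.ofZ_DMf Z).mp hd
  have h2 : ∀ i, PLe ((pof Z).im p A) ((t.cnd c i).im p A) := fun i => PLe_im p A hA (h1 i)
  have h3 : ∀ i, PLe (pof (S := Sp.im p A) Z) ((t.cnd c i).im p A) := fun i => by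
    have h4 := h2 i
    rw [pof_im] at h4
    exact h4
  have h5 : (Lab.ofZ (S := Sp.im p A) Z).DMf (fun i => (t.cnd c i).im p A) :=
    (Lab.ofZ_DMf (S := Sp.im p A) Z).mpr h3
  intro i
  rcases i with _ | i
  · exact h5 none
  · exact h5 (some i)

end lit

/-! ### atoms -/

theorem exists_atom (F : FSp) : ∃ ω, F.μ ω ≠ 0 := by
  by_contra hc
  push Not at hc
  have h1 : ∑ ω, F.μ ω = 1 := F.ms
  rw [Finset.sum_eq_zero fun ω _ => hc ω] at h1
  exact zero_ne_one h1

/-- a point of the support -/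
def at0 (F : FSp) : F.Ω := (exists_atom F).choose

theorem at0_ne (F : FSp) : F.μ (at0 F) ≠ 0 := (exists_atom F).choose_spec

theorem pb_atom (F : FSp) (x : F.Ω) : F.pb (fun ω => ω = x) = F.μ x := by
  show ∑ ω, res F.μ (fun ω => ω = x) ω = F.μ x
  rw [Finset.sum_eq_single x]
  · exact res_pos _ _ _ rfl
  · intro b _ hb
    exact res_neg _ _ _ hb
  · intro hx
    exact absurd (Finset.mem_univ _) hx

/-- the law on the event of one atom -/
theorem rest_atom (F : FSp) (x : F.Ω) (hx : F.μ x ≠ 0) (ω : F.Ω) : (F.rest fun ω => ω = x).μ ω = e1_ind (x = ω) := by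
  have h0 : F.pb (fun ω => ω = x) ≠ 0 := by rw [pb_atom]; exact hx
  have h1 : (F.rest fun ω => ω = x).μ ω = (F.pb fun ω => ω = x)⁻¹ * res F.μ (fun ω => ω = x) ω :=
    congrFun (F.restμ_eq _ h0) ω
  rw [h1, pb_atom]
  by_cases h2 : ω = x
  · rw [res_pos F.μ (fun ω => ω = x) ω h2, h2, inv_mul_cancel₀ hx, e1_ind_pos rfl]
  · rw [res_neg F.μ (fun ω => ω = x) ω h2, mul_zero, e1_ind_neg fun h3 => h2 h3.symm]

theorem rest_atom_supp (F : FSp) (x : F.Ω) (hx : F.μ x ≠ 0) (ω : F.Ω) (h : (F.rest fun ω => ω = x).μ ω ≠ 0) :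
    ω = x := by
  rw [rest_atom F x hx] at h
  by_contra hc
  exact h (e1_ind_neg fun h3 => hc h3.symm)

theorem push_const {Ω₁ Ω₂ : Type} [Fintype Ω₂] (x : Ω₁) (ν : Ω₂ → ℝ) (h1 : ∑ y, ν y = 1) (ω : Ω₁) :
    push (fun _ => x) ν ω = e1_ind (x = ω) := by
  rw [push_ind, ← Finset.mul_sum, h1, mul_one]

/-! ### two restrictions -/

section sw

variable {T : Sp} (E B : ∀ k, (T.F k).Ω → Prop)

/-- the events meet at the index `k` -/
def gd (k : ℕ) : Prop := (T.F k).pb (fun ω => B k ω ∧ E k ω) ≠ 0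

open Classical in
/-- the event `E` after the restriction to `B` -/
def Ev : ∀ k, ((T.rest B).F k).Ω → Prop := fun k => if gd E B k then E k else fun ω => ω = at0 ((T.rest B).F k)

open Classical in
/-- the event `B` after the restriction to `E` -/
def Bv : ∀ k, ((T.rest E).F k).Ω → Prop := fun k => if gd E B k then B k else fun ω => ω = at0 ((T.rest E).F k)

theorem Ev_gd {k : ℕ} (h : gd E B k) : Ev E B k = E k := if_pos h

theorem Bv_gd {k : ℕ} (h : gd E B k) : Bv E B k = B k := if_pos h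

theorem Ev_bd {k : ℕ} (h : ¬ gd E B k) : Ev E B k = fun ω => ω = at0 ((T.rest B).F k) := if_neg h

theorem Bv_bd {k : ℕ} (h : ¬ gd E B k) : Bv E B k = fun ω => ω = at0 ((T.rest E).F k) := if_neg h

open Classical in
/-- the map between the two restricted spaces -/
def swπ (k : ℕ) : (T.F k).Ω → (T.F k).Ω := if gd E B k then fun ω => ω else fun _ => at0 ((T.rest E).F k)

theorem swπ_gd {k : ℕ} (h : gd E B k) : swπ E B k = fun ω => ω := if_pos h

theorem swπ_bd {k : ℕ} (h : ¬ gd E B k) : swπ E B k = fun _ => at0 ((T.rest E).F k) := if_neg h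

theorem law_gd {k : ℕ} (h : gd E B k) : (((T.rest B).rest (Ev E B)).F k).μ = (((T.rest E).rest (Bv E B)).F k).μ := by
  have h1 : (((T.rest B).rest (Ev E B)).F k).μ = (((T.F k).rest (B k)).rest (Ev E B k)).μ := rfl
  have h2 : (((T.rest E).rest (Bv E B)).F k).μ = (((T.F k).rest (E k)).rest (Bv E B k)).μ := rfl
  have h3 : (T.F k).pb (fun ω => B k ω ∧ E k ω) ≠ 0 := h
  have e : (fun ω => B k ω ∧ E k ω) = fun ω => E k ω ∧ B k ω := by
    funext ω
    exact propext and_comm
  rw [h1, h2, Ev_gd E B h, Bv_gd E B h, Pool.Agent.Helper80.HCI.rest_rest_mu _ _ _ h3, e]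
  rw [e] at h3
  exact (Pool.Agent.Helper80.HCI.rest_rest_mu _ _ _ h3).symm

theorem law_bd_l {k : ℕ} (h : ¬ gd E B k) (ω : (T.F k).Ω) :
    (((T.rest B).rest (Ev E B)).F k).μ ω = e1_ind (at0 ((T.rest B).F k) = ω) := by
  have h1 : (((T.rest B).rest (Ev E B)).F k).μ = (((T.rest B).F k).rest (Ev E B k)).μ := rfl
  rw [h1, Ev_bd E B h]
  exact rest_atom ((T.rest B).F k) _ (at0_ne _) ω

theorem law_bd_r {k : ℕ} (h : ¬ gd E B k) (ω : (T.F k).Ω) :
    (((T.rest E).rest (Bv E B)).F k).μ ω = e1_ind (at0 ((T.rest E).F k) = ω) := by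
  have h1 : (((T.rest E).rest (Bv E B)).F k).μ = (((T.rest E).F k).rest (Bv E B k)).μ := rfl
  rw [h1, Bv_bd E B h]
  exact rest_atom ((T.rest E).F k) _ (at0_ne _) ω

theorem supp_bd {k : ℕ} (h : ¬ gd E B k) {ω : (T.F k).Ω} (hω : (((T.rest B).rest (Ev E B)).F k).μ ω ≠ 0) :
    ω = at0 ((T.rest B).F k) := by
  rw [law_bd_l E B h] at hω
  by_contra hc
  exact hω (e1_ind_neg fun h3 => hc h3.symm)

/-- THE SWAP of two restrictions (the identity where the events meet) -/
def sw : Pj ((T.rest B).rest (Ev E B)) ((T.rest E).rest (Bv E B)) where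
  π := fun k => swπ (T := T) E B k
  law := by
    intro k
    by_cases h : gd E B k
    · have e : swπ E B k = fun ω => ω := swπ_gd E B h
      have e2 := law_gd E B h
      show push (swπ (T := T) E B k) (((T.rest B).rest (Ev E B)).F k).μ = (((T.rest E).rest (Bv E B)).F k).μ
      rw [e, e2]
      exact push_id _
    · have e : swπ E B k = fun _ => at0 ((T.rest E).F k) := swπ_bd E B h
      show push (swπ (T := T) E B k) (((T.rest B).rest (Ev E B)).F k).μ = (((T.rest E).rest (Bv E B)).F k).μ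
      rw [e]
      funext ω
      rw [law_bd_r E B h]
      exact push_const _ _ (((T.rest B).rest (Ev E B)).F k).ms ω
  hZ := by
    intro k ω ω' a b
    show (T.F k).Z ω ω' ↔ (T.F k).Z (swπ (T := T) E B k ω) (swπ (T := T) E B k ω')
    by_cases h : gd E B k
    · rw [swπ_gd E B h]
    · rw [swπ_bd E B h, supp_bd E B h a, supp_bd E B h b]
      exact ⟨fun _ => Setoid.refl' _ _, fun _ => Setoid.refl' _ _⟩
  hn := fun _ => rfl

variable {E B}

theorem gd_ev (hB : 0 < ul (T.pr B)) (hE : Typ E) : ∀ᶠ k in UF, gd E B k := by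
  have h1 : Typ (S := T.rest B) E := Pool.Agent.Helper25.EC.typ_rest B hB hE
  have h2 : 0 < ul ((T.rest B).pr E) := ul_pr_typ_pos (S := T.rest B) E h1
  filter_upwards [eventually_gt_of_lt_ul (UB_pr B) hB, eventually_gt_of_lt_ul (UB_pr (S := T.rest B) E) h2] with k a b
  have h3 := Pool.Agent.Helper80.HCI.pb_and (T.F k) (B k) (E k)
  have a' : 0 < (T.F k).pb (B k) := a
  have b' : 0 < ((T.F k).rest (B k)).pb (E k) := b
  exact (lt_of_lt_of_le (mul_pos a' b') h3).ne'

theorem Ev_typ (hB : 0 < ul (T.pr B)) (hE : Typ E) : Typ (S := T.rest B) (Ev E B) := by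
  have h1 : Typ (S := T.rest B) E := Pool.Agent.Helper25.EC.typ_rest B hB hE
  refine h1.mono ?_
  filter_upwards [gd_ev hB hE] with k hk ω _ h2
  rw [Ev_gd E B hk]
  exact h2

theorem Bv_pos (hB : 0 < ul (T.pr B)) (hE : Typ E) : 0 < ul ((T.rest E).pr (Bv E B)) := by
  have h0 : 0 < ul (T.pr E) := ul_pr_typ_pos E hE
  have h1 : ul ((T.rest E).pr (Bv E B)) = ul ((T.rest E).pr B) := by
    apply ul_congr
    filter_upwards [gd_ev hB hE] with k hk
    show ((T.rest E).F k).pb (Bv E B k) = ((T.rest E).F k).pb (B k)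
    rw [Bv_gd E B hk]
  rw [h1]
  have h2 : ∀ᶠ k in UF, T.pr B k - (1 - T.pr E k) ≤ (T.rest E).pr B k := by
    filter_upwards [eventually_gt_of_lt_ul (UB_pr E) h0] with k hk
    have hk' : 0 < (T.F k).pb (E k) := hk
    have a1 : (T.F k).pb (B k) ≤ (T.F k).pb (fun ω => E k ω ∧ B k ω) + (1 - (T.F k).pb (E k)) := by
      have a2 := (T.F k).pb_add_compl (E k)
      have a3 : (T.F k).pb (B k) ≤ (T.F k).pb (fun ω => E k ω ∧ B k ω) + (T.F k).pb (fun ω => ¬ E k ω) := by
        show ∑ ω, res (T.F k).μ (B k) ω ≤ ∑ ω, res (T.F k).μ (fun ω => E k ω ∧ B k ω) ω +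
          ∑ ω, res (T.F k).μ (fun ω => ¬ E k ω) ω
        rw [← Finset.sum_add_distrib]
        refine Finset.sum_le_sum fun ω _ => ?_
        have hn := (T.F k).nn ω
        by_cases b1 : B k ω
        · by_cases b2 : E k ω
          · rw [res_pos _ _ _ b1, res_pos _ (fun ω => E k ω ∧ B k ω) _ ⟨b2, b1⟩,
              res_neg _ (fun ω => ¬ E k ω) _ (fun hc => hc b2), add_zero]
          · rw [res_pos _ _ _ b1, res_neg _ (fun ω => E k ω ∧ B k ω) _ (fun hc => b2 hc.1),
              res_pos _ (fun ω => ¬ E k ω) _ b2, zero_add]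
        · rw [res_neg _ _ _ b1]
          exact add_nonneg ((T.F k).res_nonneg _ _) ((T.F k).res_nonneg _ _)
      linarith
    have a4 := Pool.Agent.Helper80.HCI.pb_rest (T.F k) (E k) (B k) hk'.ne'
    have a5 : (T.F k).pb (fun ω => E k ω ∧ B k ω) ≤ ((T.F k).rest (E k)).pb (B k) := by
      rw [a4]
      have a6 := (T.F k).pb_le_one (E k)
      have a7 := (T.F k).pb_nonneg (fun ω => E k ω ∧ B k ω)
      have a8 : 1 ≤ ((T.F k).pb (E k))⁻¹ := (one_le_inv₀ hk').mpr a6
      nlinarith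
    show (T.F k).pb (B k) - (1 - (T.F k).pb (E k)) ≤ ((T.F k).rest (E k)).pb (B k)
    linarith
  have h3 : Tendsto (fun k => T.pr B k - (1 - T.pr E k)) UF (𝓝 (ul (T.pr B) - (1 - 1))) :=
    (ul_tendsto (UB_pr B)).sub ((Typ_iff E |>.mp hE).const_sub 1)
  rw [sub_self, sub_zero] at h3
  have h4 := ul_eq h3
  have h5 : ul (T.pr B) ≤ ul ((T.rest E).pr B) := by
    refine le_of_tendsto_of_tendsto h3 (ul_tendsto (UB_pr (S := T.rest E) B)) h2
  exact lt_of_lt_of_le hB h5

/-- functions under the swap -/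
theorem sw_qs (hB : 0 < ul (T.pr B)) (tE : Typ E) (hE : 0 < ul (T.pr E)) (hE' : 0 < ul ((T.rest B).pr (Ev E B)))
    (hB' : 0 < ul ((T.rest E).pr (Bv E B))) (f : QS T) :
    (sw E B).qs (QS.rest (S := T.rest E) (Bv E B) hB' (QS.rest E hE f)) =
      QS.rest (S := T.rest B) (Ev E B) hE' (QS.rest B hB f) := by
  obtain ⟨f, rfl⟩ := QS.mk_surj f
  refine QS.mk_eq.mpr ?_
  refine ⟨fun _ _ => True, fun _ => 0, ?_, Sp.Sub_const _ le_rfl, ?_⟩
  · unfold Typ
    refine tendsto_const_nhds.congr fun k => ?_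
    symm
    apply Finset.sum_eq_zero
    intro ω _
    exact res_neg _ _ _ fun hc => hc trivial
  · filter_upwards [gd_ev hB tE] with k hk ω _ _
    have e : swπ (T := T) E B k ω = ω := by rw [swπ_gd E B hk]
    show |f.1 k (swπ (T := T) E B k ω) - f.1 k ω| ≤ 0 * ((T.rest B).rest (Ev E B)).dl 1 k
    rw [e, sub_self, abs_zero, zero_mul]

end sw

end

end Pool.Agent.Helper68.VW
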